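import Pool.Agent.H958.LR.Stm

set_option autoImplicit false

/-!
# Project LR, part STATIC: from the static process to the windows (helper972)
-/

namespace Pool.Agent.H972.LRS

open MeasureTheory ProbabilityTheory Set Filter
open scoped ENNReal NNReal Nat Topology
open Pool.Agent.H958.LR

variable {V Ω : Type}

/-- the label of a pair or vertex of the finite region -/
def lb (Λ : Finset V) : Sym2 Λ ⊕ Λ → Sym2 V ⊕ V
  | Sum.inl e => Sum.inl (e.map Subtype.val)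
  | Sum.inr x => Sum.inr x.val

theorem lb_inj (Λ : Finset V) : Function.Injective (lb Λ) := by
  intro a b h
  rcases a with e | x <;> rcases b with f | y
  · simp only [lb, Sum.inl.injEq] at h
    rw [Sym2.map.injective Subtype.val_injective h]
  · simp [lb] at h
  · simp [lb] at h
  · simp only [lb, Sum.inr.injEq] at h
    rw [Subtype.ext h]

/-- the number of points of the label `i.1` in the window `i.2` -/
noncomputable def cnt (N : Sym2 V ⊕ V → Ω → Set ℝ) (Λ : Finset V) (k : ℕ)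
    (i : (Sym2 Λ ⊕ Λ) × ℕ) (ω : Ω) : ℕ∞ :=
  (N (lb Λ i.1) ω ∩ Ioc ((i.2 : ℝ) * (1 / 2) ^ k) (((i.2 : ℝ) + 1) * (1 / 2) ^ k)).encard

/-- the value of the configuration -/
def vl {Λ : Finset V} : Sym2 Λ ⊕ Λ → ℕ∞ → Bool
  | Sum.inl _, c => decide (c ≠ 0)
  | Sum.inr _, c => decide (c = 0)

/-- the configuration of the windows -/
noncomputable def cfg (N : Sym2 V ⊕ V → Ω → Set ℝ) (Λ : Finset V) (k : ℕ) (ω : Ω) : Win Λ :=
  fun i => vl i.1 (cnt N Λ k i ω)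

theorem cnt_zero {N : Sym2 V ⊕ V → Ω → Set ℝ} {Λ : Finset V} {k : ℕ}
    {i : (Sym2 Λ ⊕ Λ) × ℕ} {ω : Ω} : cnt N Λ k i ω = 0 ↔
      ∀ u, (i.2 : ℝ) * (1 / 2) ^ k < u → u ≤ ((i.2 : ℝ) + 1) * (1 / 2) ^ k →
        u ∉ N (lb Λ i.1) ω := by
  unfold cnt
  rw [Set.encard_eq_zero, Set.eq_empty_iff_forall_notMem]
  constructor
  · intro h u h1 h2 h3
    exact h u ⟨h3, h1, h2⟩
  · rintro h u ⟨h3, h1, h2⟩
    exact h u h1 h2 h3

theorem cfg_inl {N : Sym2 V ⊕ V → Ω → Set ℝ} {Λ : Finset V} {k : ℕ} {e : Sym2 Λ} {j : ℕ}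
    {ω : Ω} (h : cfg N Λ k ω (Sum.inl e, j) = true) : ∃ u, (j : ℝ) * (1 / 2) ^ k < u ∧
      u ≤ ((j : ℝ) + 1) * (1 / 2) ^ k ∧ u ∈ N (Sum.inl (e.map Subtype.val)) ω := by
  have h1 : cnt N Λ k (Sum.inl e, j) ω ≠ 0 := by
    simpa [cfg, vl] using h
  rw [ne_eq, cnt_zero] at h1
  push Not at h1
  exact h1

theorem cfg_inr {N : Sym2 V ⊕ V → Ω → Set ℝ} {Λ : Finset V} {k : ℕ} {x : Λ} {j : ℕ}
    {ω : Ω} (h : cfg N Λ k ω (Sum.inr x, j) = true) : ∀ u, (j : ℝ) * (1 / 2) ^ k < u →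
      u ≤ ((j : ℝ) + 1) * (1 / 2) ^ k → u ∉ N (Sum.inr x.val) ω := by
  have h1 : cnt N Λ k (Sum.inr x, j) ω = 0 := by
    simpa [cfg, vl] using h
  rw [cnt_zero] at h1
  exact h1

/-- a transmission and a recovery in the same window -/
def Bad (N : Sym2 V ⊕ V → Ω → Set ℝ) (Λ : Finset V) (k n : ℕ) : Set Ω :=
  {ω | ∃ j : Fin n, ∃ e : Sym2 Λ, ∃ x : Λ, cfg N Λ k ω (Sum.inl e, j) = true ∧
    cfg N Λ k ω (Sum.inr x, j) = false}

/-- survival in the windows, and all windows are good -/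
def Good (N : Sym2 V ⊕ V → Ω → Set ℝ) (Λ : Finset V) (k n : ℕ) (o : Λ) : Set Ω :=
  {ω | ω ∉ Bad N Λ k n ∧ ∃ y, Fwd (cfg N Λ k ω) o n y}

/-! ## Deterministic part -/

theorem inf_of_fwd {N : Sym2 V ⊕ V → Ω → Set ℝ} {Λ : Finset V} {k : ℕ} {o : Λ} {ω : Ω} :
    ∀ (n : ℕ) (y : Λ), ω ∉ Bad N Λ k n → Fwd (cfg N Λ k ω) o n y →
      Infected (fun x => N (Sum.inr x) ω) (fun e => N (Sum.inl e) ω) o.val y.val
        ((n : ℝ) * (1 / 2) ^ k) := by
  intro n
  have hδ : (0 : ℝ) < (1 / 2) ^ k := by positivity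
  induction n with
  | zero =>
    intro y _ hy
    rw [show y = o from hy, Nat.cast_zero, zero_mul]
    exact Infected.start
  | succ n ih =>
    rintro y hB ⟨x, hx, hs⟩
    have hB' : ω ∉ Bad N Λ k n := by
      rintro ⟨j, h⟩
      exact hB ⟨⟨j.val, j.isLt.trans (Nat.lt_succ_self n)⟩, h⟩
    have h1 := ih x hB' hx
    have hle : (n : ℝ) * (1 / 2) ^ k ≤ ((n : ℝ) + 1) * (1 / 2) ^ k := by nlinarith
    push_cast
    rcases hs with ⟨rfl, hs⟩ | ⟨hxy, hs⟩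
    · exact h1.stay hle (cfg_inr hs)
    · have hrec : ∀ z : Λ, ∀ u, (n : ℝ) * (1 / 2) ^ k < u →
          u ≤ ((n : ℝ) + 1) * (1 / 2) ^ k → u ∉ N (Sum.inr z.val) ω := by
        intro z
        apply cfg_inr
        by_contra h
        rw [Bool.not_eq_true] at h
        exact hB ⟨⟨n, Nat.lt_succ_self n⟩, s(x, y), z, hs, h⟩
      obtain ⟨u, hu1, hu2, hu3⟩ := cfg_inl hs
      have h2 := h1.stay hu1.le fun w hw1 hw2 => hrec x w hw1 (hw2.trans hu2)
      have h3 : (0 : ℝ) ≤ (n : ℝ) * (1 / 2) ^ k := by positivity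
      have h4 := h2.cross (y := y.val) (fun h => hxy (Subtype.ext h)) (lt_of_le_of_lt h3 hu1) hu3
      exact h4.stay hu2 fun w hw1 hw2 => hrec y w (hu1.trans hw1) hw2

theorem inf_earlier {rec : V → Set ℝ} {tr : Sym2 V → Set ℝ} {o : V} {y : V} {s : ℝ}
    (h : Infected rec tr o y s) : ∀ t, 0 ≤ t → t ≤ s → ∃ x, Infected rec tr o x t := by
  induction h with
  | start =>
    intro t h0 h1
    have : t = 0 := le_antisymm h1 h0
    rw [this]
    exact ⟨o, Infected.start⟩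
  | @stay x s s' hx hs hr ih =>
    intro t h0 h1
    rcases le_total t s with h | h
    · exact ih t h0 h
    · exact ⟨x, hx.stay h fun u hu1 hu2 => hr u hu1 (hu2.trans h1)⟩
  | cross _ _ _ _ ih => exact ih

theorem fwd_le {Λ : Type} {ω : Win Λ} {o : Λ} {m n : ℕ} (hmn : m ≤ n) {y : Λ}
    (h : Fwd ω o n y) : ∃ x, Fwd ω o m x := by
  induction n, hmn using Nat.le_induction generalizing y with
  | base => exact ⟨y, h⟩
  | succ n _ ih =>
    obtain ⟨x, hx, -⟩ := h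
    exact ih hx

theorem fwd_congr {Λ : Type} {ω ω' : Win Λ} {o : Λ} {n : ℕ}
    (h : ∀ i j, j < n → ω (i, j) = ω' (i, j)) (y : Λ) : Fwd ω o n y ↔ Fwd ω' o n y := by
  induction n generalizing y with
  | zero => exact Iff.rfl
  | succ n ih =>
    have ih' := ih fun i j hj => h i j (hj.trans (Nat.lt_succ_self n))
    refine exists_congr fun x => and_congr (ih' x) ?_
    unfold Step
    rw [h _ n (Nat.lt_succ_self n), h _ n (Nat.lt_succ_self n)]

theorem good_anti {N : Sym2 V ⊕ V → Ω → Set ℝ} {Λ : Finset V} {k : ℕ} {o : Λ} {m n : ℕ}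
    (hmn : m ≤ n) : Good N Λ k n o ⊆ Good N Λ k m o := by
  rintro ω ⟨h1, y, h2⟩
  refine ⟨?_, fwd_le hmn h2⟩
  rintro ⟨j, h⟩
  exact h1 ⟨⟨j.val, j.isLt.trans_le hmn⟩, h⟩

theorem good_inf {N : Sym2 V ⊕ V → Ω → Set ℝ} {Λ : Finset V} {k t : ℕ} {o : Λ} {ω : Ω}
    (h : ω ∈ Good N Λ k (t * 2 ^ k) o) : ∃ y, Infected (fun x => N (Sum.inr x) ω)
      (fun e => N (Sum.inl e) ω) o.val y (t : ℝ) := by
  obtain ⟨h1, y, h2⟩ := h
  have h3 := inf_of_fwd _ y h1 h2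
  have e : ((t * 2 ^ k : ℕ) : ℝ) * (1 / 2) ^ k = t := by
    push_cast
    rw [mul_assoc, ← mul_pow]
    norm_num
  rw [e] at h3
  exact ⟨y.val, h3⟩

/-! ## Measurability -/

section meas
variable [MeasurableSpace Ω] {P : Measure Ω} {N : Sym2 V ⊕ V → Ω → Set ℝ} {rate : Sym2 V ⊕ V → ℝ}

theorem cnt_meas (hN : IsPoissonFamily P rate N) (Λ : Finset V) (k : ℕ)
    (i : (Sym2 Λ ⊕ Λ) × ℕ) : Measurable (cnt N Λ k i) := by
  exact hN.meas _ _ _ (by positivity)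

theorem cfg_meas (hN : IsPoissonFamily P rate N) (Λ : Finset V) (k : ℕ)
    (i : (Sym2 Λ ⊕ Λ) × ℕ) : Measurable fun ω => cfg N Λ k ω i :=
  (Measurable.of_discrete (f := vl i.1)).comp (cnt_meas hN Λ k i)

theorem bad_meas (hN : IsPoissonFamily P rate N) (Λ : Finset V) (k n : ℕ) :
    MeasurableSet (Bad N Λ k n) := by
  have e : Bad N Λ k n = ⋃ j : Fin n, ⋃ e : Sym2 Λ, ⋃ x : Λ,
      ((fun ω => cfg N Λ k ω (Sum.inl e, (j : ℕ))) ⁻¹' {true} ∩
        (fun ω => cfg N Λ k ω (Sum.inr x, (j : ℕ))) ⁻¹' {false}) := by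
    ext ω
    simp [Bad]
  rw [e]
  have : Countable (Sym2 Λ) := inferInstanceAs (Countable (Quot _))
  exact MeasurableSet.iUnion fun j => MeasurableSet.iUnion fun e => MeasurableSet.iUnion fun x =>
    (cfg_meas hN Λ k _ (measurableSet_singleton _)).inter
      (cfg_meas hN Λ k _ (measurableSet_singleton _))

theorem fwd_meas (hN : IsPoissonFamily P rate N) (Λ : Finset V) (k : ℕ) (o : Λ) (n : ℕ) (y : Λ) :
    MeasurableSet {ω | Fwd (cfg N Λ k ω) o n y} := by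
  induction n generalizing y with
  | zero => exact MeasurableSet.const _
  | succ n ih =>
    have e : {ω | Fwd (cfg N Λ k ω) o (n + 1) y} = ⋃ x : Λ, ({ω | Fwd (cfg N Λ k ω) o n x} ∩
        ((({ω | x = y} ∩ (fun ω => cfg N Λ k ω (Sum.inr x, n)) ⁻¹' {true}) ∪
          ({ω | x ≠ y} ∩ (fun ω => cfg N Λ k ω (Sum.inl s(x, y), n)) ⁻¹' {true})))) := by
      ext ω
      simp [Fwd, Step]
    rw [e]
    exact MeasurableSet.iUnion fun x => (ih x).inter
      (((MeasurableSet.const _).inter (cfg_meas hN Λ k _ (measurableSet_singleton _))).union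
        ((MeasurableSet.const _).inter (cfg_meas hN Λ k _ (measurableSet_singleton _))))

theorem good_meas (hN : IsPoissonFamily P rate N) (Λ : Finset V) (k n : ℕ) (o : Λ) :
    MeasurableSet (Good N Λ k n o) := by
  have e : Good N Λ k n o = (Bad N Λ k n)ᶜ ∩ ⋃ y : Λ, {ω | Fwd (cfg N Λ k ω) o n y} := by
    ext ω
    simp [Good]
  rw [e]
  exact (bad_meas hN Λ k n).compl.inter (MeasurableSet.iUnion fun y => fwd_meas hN Λ k o n y)

/-! ## Probabilities -/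

theorem prob_zero [IsProbabilityMeasure P] (hN : IsPoissonFamily P rate N) (Λ : Finset V) (k : ℕ)
    (i : (Sym2 Λ ⊕ Λ) × ℕ) :
    P {ω | cnt N Λ k i ω = 0} = ENNReal.ofReal (Real.exp (-(rate (lb Λ i.1) * (1 / 2) ^ k))) := by
  have h := hN.law (lb Λ i.1) ((i.2 : ℝ) * (1 / 2) ^ k) (((i.2 : ℝ) + 1) * (1 / 2) ^ k)
    (by positivity) (by nlinarith [show (0 : ℝ) < (1 / 2) ^ k by positivity]) 0
  have e : ((i.2 : ℝ) + 1) * (1 / 2) ^ k - (i.2 : ℝ) * (1 / 2) ^ k = (1 / 2) ^ k := by ring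
  rw [e, pow_zero, mul_one, Nat.factorial_zero, Nat.cast_one, div_one] at h
  rw [← h]
  rfl

theorem prob_pos [IsProbabilityMeasure P] (hN : IsPoissonFamily P rate N) (Λ : Finset V) (k : ℕ)
    (i : (Sym2 Λ ⊕ Λ) × ℕ) :
    P {ω | cnt N Λ k i ω ≠ 0} =
      ENNReal.ofReal (1 - Real.exp (-(rate (lb Λ i.1) * (1 / 2) ^ k))) := by
  have h1 : {ω | cnt N Λ k i ω ≠ 0} = {ω | cnt N Λ k i ω = 0}ᶜ := rfl
  have h2 : MeasurableSet {ω | cnt N Λ k i ω = 0} :=
    cnt_meas hN Λ k i (measurableSet_singleton 0)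
  rw [h1, prob_compl_eq_one_sub h2, prob_zero hN, ENNReal.ofReal_sub _ (Real.exp_pos _).le,
    ENNReal.ofReal_one]

theorem cfg_indep (hN : IsPoissonFamily P rate N) (Λ : Finset V) (k n : ℕ) :
    iIndepFun (fun (i : (Sym2 Λ ⊕ Λ) × Fin n) ω => cfg N Λ k ω (i.1, i.2.val)) P := by
  have h := hN.indep ((Sym2 Λ ⊕ Λ) × Fin n) (fun i => lb Λ i.1)
    (fun i => ((i.2 : ℕ) : ℝ) * (1 / 2) ^ k) (fun i => (((i.2 : ℕ) : ℝ) + 1) * (1 / 2) ^ k)
    (fun i => by positivity) ?_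
  · exact h.comp (fun i => vl i.1) fun i => Measurable.of_discrete
  · intro i j hij hl
    have h1 : i.1 = j.1 := lb_inj Λ hl
    have h2 : i.2.val ≠ j.2.val := fun h => hij (Prod.ext h1 (Fin.ext h))
    have hδ : (0 : ℝ) < (1 / 2) ^ k := by positivity
    rw [Set.disjoint_left]
    rintro u ⟨h3, h4⟩ ⟨h5, h6⟩
    rcases lt_or_gt_of_ne h2 with h7 | h7
    · have h8 : ((i.2.val : ℝ) + 1) ≤ (j.2.val : ℝ) := by exact_mod_cast h7
      have := mul_le_mul_of_nonneg_right h8 hδ.le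
      linarith
    · have h8 : ((j.2.val : ℝ) + 1) ≤ (i.2.val : ℝ) := by exact_mod_cast h7
      have := mul_le_mul_of_nonneg_right h8 hδ.le
      linarith

/-- the probability of a bad window tends to zero -/
theorem bad_prob [IsProbabilityMeasure P] (hN : IsPoissonFamily P rate N) (Λ : Finset V) (t : ℕ) :
    ∃ C : ℝ, 0 ≤ C ∧ ∀ k, P (Bad N Λ k (t * 2 ^ k)) ≤ ENNReal.ofReal (C * (1 / 2) ^ k) := by
  classical
  have : Fintype (Sym2 Λ) := inferInstance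
  refine ⟨t * ∑ e : Sym2 Λ, ∑ x : Λ, rate (lb Λ (Sum.inl e)) * rate (lb Λ (Sum.inr x)), ?_, ?_⟩
  · exact mul_nonneg (Nat.cast_nonneg _) (Finset.sum_nonneg fun e _ => Finset.sum_nonneg
      fun x _ => mul_nonneg (hN.rate_nonneg _) (hN.rate_nonneg _))
  intro k
  have hδ : (0 : ℝ) < (1 / 2) ^ k := by positivity
  have hsub : Bad N Λ k (t * 2 ^ k) ⊆ ⋃ j : Fin (t * 2 ^ k), ⋃ e : Sym2 Λ, ⋃ x : Λ,
      {ω | cfg N Λ k ω (Sum.inl e, (j : ℕ)) = true ∧
        cfg N Λ k ω (Sum.inr x, (j : ℕ)) = false} := by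
    rintro ω ⟨j, e, x, h⟩
    exact mem_iUnion.2 ⟨j, mem_iUnion.2 ⟨e, mem_iUnion.2 ⟨x, h⟩⟩⟩
  have hone : ∀ (j : Fin (t * 2 ^ k)) (e : Sym2 Λ) (x : Λ),
      P {ω | cfg N Λ k ω (Sum.inl e, (j : ℕ)) = true ∧
        cfg N Λ k ω (Sum.inr x, (j : ℕ)) = false} ≤
      ENNReal.ofReal (rate (lb Λ (Sum.inl e)) * rate (lb Λ (Sum.inr x)) *
        ((1 / 2) ^ k * (1 / 2) ^ k)) := by
    intro j e x
    have h1 := (cfg_indep hN Λ k (t * 2 ^ k)).indepFun
      (i := (Sum.inl e, j)) (j := (Sum.inr x, j)) (by simp)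
    have h2 := h1.measure_inter_preimage_eq_mul {true} {false} (measurableSet_singleton _)
      (measurableSet_singleton _)
    have h3 : {ω | cfg N Λ k ω (Sum.inl e, (j : ℕ)) = true ∧
        cfg N Λ k ω (Sum.inr x, (j : ℕ)) = false} =
        (fun ω => cfg N Λ k ω (Sum.inl e, (j : ℕ))) ⁻¹' {true} ∩
        (fun ω => cfg N Λ k ω (Sum.inr x, (j : ℕ))) ⁻¹' {false} := rfl
    rw [h3]
    refine h2.le.trans ?_
    have h4 : (fun ω => cfg N Λ k ω (Sum.inl e, (j : ℕ))) ⁻¹' {true} =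
        {ω | cnt N Λ k (Sum.inl e, (j : ℕ)) ω ≠ 0} := by
      ext ω
      simp [cfg, vl]
    have h5 : (fun ω => cfg N Λ k ω (Sum.inr x, (j : ℕ))) ⁻¹' {false} =
        {ω | cnt N Λ k (Sum.inr x, (j : ℕ)) ω ≠ 0} := by
      ext ω
      simp [cfg, vl]
    rw [h4, h5, prob_pos hN, prob_pos hN, ← ENNReal.ofReal_mul]
    · apply ENNReal.ofReal_le_ofReal
      have hb : ∀ r : ℝ, 0 ≤ r → 0 ≤ 1 - Real.exp (-(r * (1 / 2) ^ k)) ∧
          1 - Real.exp (-(r * (1 / 2) ^ k)) ≤ r * (1 / 2) ^ k := by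
        intro r hr
        constructor
        · have : Real.exp (-(r * (1 / 2) ^ k)) ≤ 1 := by
            rw [Real.exp_le_one_iff]
            have := mul_nonneg hr hδ.le
            linarith
          linarith
        · have := Real.add_one_le_exp (-(r * (1 / 2) ^ k))
          linarith
      obtain ⟨a1, a2⟩ := hb _ (hN.rate_nonneg (lb Λ (Sum.inl e)))
      obtain ⟨b1, b2⟩ := hb _ (hN.rate_nonneg (lb Λ (Sum.inr x)))
      calc _ ≤ rate (lb Λ (Sum.inl e)) * (1 / 2) ^ k * (rate (lb Λ (Sum.inr x)) * (1 / 2) ^ k) :=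
            mul_le_mul a2 b2 b1 (mul_nonneg (hN.rate_nonneg _) hδ.le)
        _ = _ := by ring
    · have : Real.exp (-(rate (lb Λ (Sum.inl e)) * (1 / 2) ^ k)) ≤ 1 := by
        rw [Real.exp_le_one_iff]
        have := mul_nonneg (hN.rate_nonneg (lb Λ (Sum.inl e))) hδ.le
        linarith
      linarith
  calc P (Bad N Λ k (t * 2 ^ k)) ≤ P (⋃ j : Fin (t * 2 ^ k), ⋃ e : Sym2 Λ, ⋃ x : Λ,
      {ω | cfg N Λ k ω (Sum.inl e, (j : ℕ)) = true ∧
        cfg N Λ k ω (Sum.inr x, (j : ℕ)) = false}) := measure_mono hsub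
    _ ≤ ∑ j : Fin (t * 2 ^ k), ∑ e : Sym2 Λ, ∑ x : Λ,
        P {ω | cfg N Λ k ω (Sum.inl e, (j : ℕ)) = true ∧
        cfg N Λ k ω (Sum.inr x, (j : ℕ)) = false} := by
      refine (measure_iUnion_fintype_le _ _).trans (Finset.sum_le_sum fun j _ => ?_)
      refine (measure_iUnion_fintype_le _ _).trans (Finset.sum_le_sum fun e _ => ?_)
      exact measure_iUnion_fintype_le _ _
    _ ≤ ∑ j : Fin (t * 2 ^ k), ∑ e : Sym2 Λ, ∑ x : Λ,
        ENNReal.ofReal (rate (lb Λ (Sum.inl e)) * rate (lb Λ (Sum.inr x)) *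
          ((1 / 2) ^ k * (1 / 2) ^ k)) :=
      Finset.sum_le_sum fun j _ => Finset.sum_le_sum fun e _ => Finset.sum_le_sum
        fun x _ => hone j e x
    _ = ENNReal.ofReal (∑ j : Fin (t * 2 ^ k), ∑ e : Sym2 Λ, ∑ x : Λ,
        (rate (lb Λ (Sum.inl e)) * rate (lb Λ (Sum.inr x)) *
          ((1 / 2) ^ k * (1 / 2) ^ k))) := by
      have h0 : ∀ (e : Sym2 Λ) (x : Λ), 0 ≤ rate (lb Λ (Sum.inl e)) * rate (lb Λ (Sum.inr x)) *
          ((1 / 2) ^ k * (1 / 2) ^ k) := fun e x =>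
        mul_nonneg (mul_nonneg (hN.rate_nonneg _) (hN.rate_nonneg _)) (by positivity)
      rw [ENNReal.ofReal_sum_of_nonneg fun j _ => Finset.sum_nonneg fun e _ =>
        Finset.sum_nonneg fun x _ => h0 e x]
      refine Finset.sum_congr rfl fun j _ => ?_
      rw [ENNReal.ofReal_sum_of_nonneg fun e _ => Finset.sum_nonneg fun x _ => h0 e x]
      refine Finset.sum_congr rfl fun e _ => ?_
      rw [ENNReal.ofReal_sum_of_nonneg fun x _ => h0 e x]
    _ = _ := by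
      congr 1
      rw [Finset.sum_const, Finset.card_univ, Fintype.card_fin, nsmul_eq_mul]
      simp only [← Finset.sum_mul]
      push_cast
      have e : (2 : ℝ) ^ k * (1 / 2) ^ k = 1 := by
        rw [← mul_pow]; norm_num
      calc (t : ℝ) * 2 ^ k * ((∑ e : Sym2 Λ, (∑ x : Λ, rate (lb Λ (Sum.inl e)) *
              rate (lb Λ (Sum.inr x)))) * ((1 / 2) ^ k * (1 / 2) ^ k)) =
          (t : ℝ) * (∑ e : Sym2 Λ, ∑ x : Λ, rate (lb Λ (Sum.inl e)) *
              rate (lb Λ (Sum.inr x))) * (1 / 2) ^ k * (2 ^ k * (1 / 2) ^ k) := by ring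
        _ = _ := by rw [e, mul_one]

end meas

/-- survival in the windows -/
theorem theta_eq (hL : S_LAW) [DecidableEq V] [MeasurableSpace Ω] {P : Measure Ω}
    [IsProbabilityMeasure P] {N : Sym2 V ⊕ V → Ω → Set ℝ} {G : SimpleGraph V} {p : ℕ → ℝ}
    {lam q : ℝ} (hN : IsPoissonFamily P (staticRate G p lam q) N) (Λ : Finset V) (k n : ℕ)
    (o : Λ) : P {ω | ∃ y, Fwd (cfg N Λ k ω) o n y} =
      ENNReal.ofReal (thetaF (pStat G p lam q Λ k) n o) := by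
  have hδ : (0 : ℝ) < (1 / 2) ^ k := by positivity
  have hp : ∀ i, 0 ≤ pStat G p lam q Λ k i ∧ pStat G p lam q Λ k i ≤ 1 := by
    intro i
    rcases i with e | x
    · simp only [pStat]
      have h1 := hN.rate_nonneg (Sum.inl (e.map Subtype.val))
      simp only [staticRate] at h1
      have h2 := mul_nonneg h1 hδ.le
      constructor
      · have : Real.exp (-(lam * q * pairVal G p (e.map Subtype.val) * (1 / 2) ^ k)) ≤ 1 := by
          rw [Real.exp_le_one_iff]; linarith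
        linarith
      · have := Real.exp_pos (-(lam * q * pairVal G p (e.map Subtype.val) * (1 / 2) ^ k))
        linarith
    · simp only [pStat]
      refine ⟨(Real.exp_pos _).le, ?_⟩
      rw [Real.exp_le_one_iff]
      linarith
  have hlaw : ∀ i : (Sym2 Λ ⊕ Λ) × Fin n, P {ω | cfg N Λ k ω (i.1, i.2.val) = true} =
      ENNReal.ofReal (pStat G p lam q Λ k i.1) := by
    rintro ⟨i | x, j⟩
    · have e : {ω | cfg N Λ k ω (Sum.inl i, (j : ℕ)) = true} =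
          {ω | cnt N Λ k (Sum.inl i, (j : ℕ)) ω ≠ 0} := by
        ext ω
        simp [cfg, vl]
      show P {ω | cfg N Λ k ω (Sum.inl i, (j : ℕ)) = true} = _
      rw [e, prob_pos hN]
      rfl
    · have e : {ω | cfg N Λ k ω (Sum.inr x, (j : ℕ)) = true} =
          {ω | cnt N Λ k (Sum.inr x, (j : ℕ)) ω = 0} := by
        ext ω
        simp [cfg, vl]
      show P {ω | cfg N Λ k ω (Sum.inr x, (j : ℕ)) = true} = _
      rw [e, prob_zero hN]
      simp only [lb, staticRate, pStat, one_mul]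
  have h := hL.1 Λ n Ω P (fun i ω => cfg N Λ k ω (i.1, i.2.val)) (pStat G p lam q Λ k)
    (fun i => cfg_meas hN Λ k _) (cfg_indep hN Λ k n) hp hlaw (fun ω => ∃ y, Fwd ω o n y)
  rw [thetaF, ← h]
  congr 1
  ext ω
  simp only [mem_ofPred_eq]
  refine exists_congr fun y => fwd_congr (fun i j hj => ?_) y
  simp only [Pool.Agent.H958.LR.ext, hj, dite_true]

theorem s_static (hL : S_LAW) : S_STATIC := by
  intro V _ _ G p lam q o Ω _ P _ N hp hlam hq hN h0 κ hκ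
  -- the events
  set D : ℕ → (Λ : Finset V) → o ∈ Λ → ℕ → Set Ω := fun t Λ ho m =>
    ⋃ k : ℕ, Good N Λ (m + k) (t * 2 ^ (m + k)) ⟨o, ho⟩ with hD
  set E : ℕ → Set Ω := fun t => ⋃ Λ : {Λ : Finset V // o ∈ Λ}, ⋂ m, D t Λ.1 Λ.2 m with hE
  have hDm : ∀ t Λ ho m, MeasurableSet (D t Λ ho m) := fun t Λ ho m =>
    MeasurableSet.iUnion fun k => good_meas hN _ _ _ _
  have hEm : ∀ t, MeasurableSet (E t) := fun t =>
    MeasurableSet.iUnion fun Λ => MeasurableSet.iInter fun m => hDm _ _ _ _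
  have hEanti : Antitone E := by
    intro s t hst ω hω
    rw [hE, mem_iUnion] at hω ⊢
    obtain ⟨Λ, hω⟩ := hω
    refine ⟨Λ, ?_⟩
    rw [mem_iInter] at hω ⊢
    intro m
    have := hω m
    rw [hD, mem_iUnion] at this ⊢
    obtain ⟨k, hk⟩ := this
    exact ⟨k, good_anti (Nat.mul_le_mul_right _ hst) hk⟩
  have hEinf : ∀ t ω, ω ∈ E t → ∃ y, Infected (fun x => N (Sum.inr x) ω)
      (fun e => N (Sum.inl e) ω) o y (t : ℝ) := by
    intro t ω hω
    rw [hE, mem_iUnion] at hω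
    obtain ⟨Λ, hω⟩ := hω
    have := mem_iInter.1 hω 0
    rw [hD, mem_iUnion] at this
    obtain ⟨k, hk⟩ := this
    exact good_inf hk
  have hsub : ⋂ t, E t ⊆ {ω | StaticSurvives N o ω} := by
    intro ω hω t ht
    obtain ⟨y, hy⟩ := hEinf ⌈t⌉₊ ω (mem_iInter.1 hω _)
    exact inf_earlier hy t ht (Nat.le_ceil t)
  have hP0 : P (⋂ t, E t) = 0 := measure_mono_null hsub h0
  have hlim : Tendsto (fun t => P (E t)) atTop (𝓝 0) := by
    have := tendsto_measure_iInter_atTop (μ := P) (fun t => (hEm t).nullMeasurableSet) hEanti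
      ⟨0, measure_ne_top _ _⟩
    rw [hP0] at this
    exact this
  have hκ' : (0 : ℝ≥0∞) < ENNReal.ofReal κ := ENNReal.ofReal_pos.2 hκ
  obtain ⟨t0, ht0⟩ := (hlim.eventually (gt_mem_nhds hκ')).exists
  refine ⟨t0, fun Λ ho => ?_⟩
  -- the limit of the good events
  have hDanti : Antitone (D t0 Λ ho) := by
    intro m m' hm ω hω
    rw [hD, mem_iUnion] at hω ⊢
    obtain ⟨k, hk⟩ := hω
    refine ⟨m' - m + k, ?_⟩
    have e : m + (m' - m + k) = m' + k := by omega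
    rw [e]
    exact hk
  have hlim2 : Tendsto (fun m => P (D t0 Λ ho m)) atTop (𝓝 (P (⋂ m, D t0 Λ ho m))) :=
    tendsto_measure_iInter_atTop (μ := P) (fun m => (hDm _ _ _ m).nullMeasurableSet) hDanti
      ⟨0, measure_ne_top _ _⟩
  have hlt : P (⋂ m, D t0 Λ ho m) < ENNReal.ofReal κ :=
    (measure_mono (subset_iUnion (fun Λ : {Λ : Finset V // o ∈ Λ} => ⋂ m, D t0 Λ.1 Λ.2 m)
      ⟨Λ, ho⟩)).trans_lt ht0
  obtain ⟨C, hC, hbad⟩ := bad_prob hN Λ t0
  have hlim3 : Tendsto (fun k : ℕ => ENNReal.ofReal (C * (1 / 2) ^ k)) atTop (𝓝 0) := by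
    have h1 : Tendsto (fun k : ℕ => C * (1 / 2 : ℝ) ^ k) atTop (𝓝 0) := by
      have := (tendsto_pow_atTop_nhds_zero_of_lt_one (r := (1 / 2 : ℝ)) (by norm_num)
        (by norm_num)).const_mul C
      rwa [mul_zero] at this
    have h2 := (ENNReal.continuous_ofReal.tendsto 0).comp h1
    rwa [ENNReal.ofReal_zero] at h2
  have hlim4 := hlim2.add hlim3
  rw [add_zero] at hlim4
  filter_upwards [hlim4.eventually (gt_mem_nhds hlt)] with k hk
  rw [← ENNReal.ofReal_lt_ofReal_iff hκ, ← theta_eq hL hN]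
  refine lt_of_le_of_lt ?_ hk
  calc P {ω | ∃ y, Fwd (cfg N Λ k ω) ⟨o, ho⟩ (t0 * 2 ^ k) y} ≤
      P (D t0 Λ ho k ∪ Bad N Λ k (t0 * 2 ^ k)) := by
        refine measure_mono fun ω hω => ?_
        by_cases hb : ω ∈ Bad N Λ k (t0 * 2 ^ k)
        · exact Or.inr hb
        · left
          rw [hD, mem_iUnion]
          exact ⟨0, hb, hω⟩
    _ ≤ P (D t0 Λ ho k) + P (Bad N Λ k (t0 * 2 ^ k)) := measure_union_le _ _
    _ ≤ _ := by gcongr; exact hbad k

end Pool.Agent.H972.LRS
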